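import Mathlib
import Pool.Agent.V11269.Forest2

/-!
A uniformly discrete finite union of rotated translated copies of the honeycomb lattice is never a
dense forest.
-/

namespace Pool.Agent.Results.MP_b83ca4_nt.NeverUniformlyDiscrete

open MeasureTheory Pool.Agent.V11269.Forest

/-- The lattice `Λ = Z (1,0) + Z (1/2, √3/2)` in the plane `R^2 = C`. -/
def Lam : Set ℂ := {z | ∃ a b : ℤ, z = a + b * (⟨1 / 2, √3 / 2⟩ : ℂ)}

/-- `TBG(k, (x_i), (θ_i))`: the union of the `r_{θ_i}(Λ) + x_i`, where rotation by `θ` is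
multiplication by `e^{iθ}`. -/
noncomputable def TBG (k : ℕ) (x : Fin k → ℂ) (θ : Fin k → ℝ) : Set ℂ :=
  ⋃ i, (fun z : ℂ => Complex.exp (θ i * Complex.I) * z + x i) '' Lam

/-- Dense forests in the plane. -/
def IsDenseForest (D : Set ℂ) : Prop :=
  ∀ ε : ℝ, 0 < ε → ∃ V : ℝ, 0 < V ∧ ∀ p q : ℂ, dist p q = V →
    ∃ z ∈ segment ℝ p q, ∃ y ∈ D, dist z y < ε

/-- Uniformly discrete sets. -/
def UniformlyDiscrete (D : Set ℂ) : Prop :=
  ∃ r : ℝ, 0 < r ∧ ∀ p ∈ D, ∀ q ∈ D, p ≠ q → r ≤ dist p q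

/-- For every `k` (in particular `k = 3`), no union of `k` rotated and translated copies of the
honeycomb lattice is a uniformly discrete dense forest. -/
theorem result (k : ℕ) (x : Fin k → ℂ) (θ : Fin k → ℝ) :
    ¬ (UniformlyDiscrete (TBG k x θ) ∧ IsDenseForest (TBG k x θ)) := by
  have hTBG : TBG k x θ = Y (fun i => Complex.exp (θ i * Complex.I)) x := by
    ext z
    simp only [TBG, Y, Lam, V11269.Forest.Lat, Set.mem_iUnion, Set.mem_image, Set.mem_ofPred_eq]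
    constructor
    · rintro ⟨i, _, ⟨a, b, rfl⟩, rfl⟩
      exact ⟨i, _, ⟨a, b, rfl⟩, by simp [pt, ω]⟩
    · rintro ⟨i, _, ⟨a, b, rfl⟩, rfl⟩
      exact ⟨i, _, ⟨a, b, rfl⟩, by simp [pt, ω]⟩
  rw [hTBG]
  rintro ⟨⟨r, hr0, hr⟩, h⟩
  have hc : ∀ i, ‖(fun i => Complex.exp (θ i * Complex.I)) i‖ = 1 := fun i =>
    Complex.norm_exp_ofReal_mul_I _
  obtain ⟨ε, hε, _, hno⟩ := not_forest hc hr0 hr
  obtain ⟨V, hV, hyes⟩ := h ε hε
  obtain ⟨p, q, hpq, hsep⟩ := hno V hV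
  obtain ⟨z, hz, y, hy, hlt⟩ := hyes p q hpq
  have := hsep z hz y hy
  linarith

end Pool.Agent.Results.MP_b83ca4_nt.NeverUniformlyDiscrete
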