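import Mathlib
import Pool.Agent.V11269.Forest2

/-!
The smallest number of rotated translated copies of the honeycomb lattice whose union can be a
dense forest is two.
-/

namespace Pool.Agent.Results.MP_b83ca4_nt.SmallestIsTwo

open MeasureTheory Pool.Agent.V11269.Forest

/-- The lattice `Λ = Z (1,0) + Z (1/2, √3/2)` in the plane `R^2 = C`. -/
def Lam : Set ℂ := {z | ∃ a b : ℤ, z = a + b * (⟨1 / 2, √3 / 2⟩ : ℂ)}

/-- `TBG(k, (x_i), (θ_i))`: the union of the `r_{θ_i}(Λ) + x_i`, where rotation by `θ` is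
multiplication by `e^{iθ}`. -/
noncomputable def TBG (k : ℕ) (x : Fin k → ℂ) (θ : Fin k → ℝ) : Set ℂ :=
  ⋃ i, (fun z : ℂ => Complex.exp (θ i * Complex.I) * z + x i) '' Lam

/-- Dense forests in the plane. -/
def IsDenseForest (D : Set ℂ) : Prop :=
  ∀ ε : ℝ, 0 < ε → ∃ V : ℝ, 0 < V ∧ ∀ p q : ℂ, dist p q = V →
    ∃ z ∈ segment ℝ p q, ∃ y ∈ D, dist z y < ε

lemma TBG_eq (k : ℕ) (x : Fin k → ℂ) (θ : Fin k → ℝ) :
    TBG k x θ = Y (fun i => Complex.exp (θ i * Complex.I)) x := by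
  ext z
  simp only [TBG, Y, Lam, V11269.Forest.Lat, Set.mem_iUnion, Set.mem_image, Set.mem_ofPred_eq]
  constructor
  · rintro ⟨i, _, ⟨a, b, rfl⟩, rfl⟩
    exact ⟨i, _, ⟨a, b, rfl⟩, by simp [pt, ω]⟩
  · rintro ⟨i, _, ⟨a, b, rfl⟩, rfl⟩
    exact ⟨i, _, ⟨a, b, rfl⟩, by simp [pt, ω]⟩

lemma norm_pt_ge {a b : ℤ} (h : (a, b) ≠ (0, 0)) : 1 ≤ ‖pt a b‖ := by
  have h1 : ‖pt a b‖ ^ 2 = ((a ^ 2 + a * b + b ^ 2 : ℤ) : ℝ) := by
    rw [← Complex.normSq_eq_norm_sq, Complex.normSq_apply, pt_re, pt_im]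
    have := sqrt3_sq
    push_cast
    linear_combination ((b : ℝ) ^ 2 / 4) * this
  have h2 : 1 ≤ a ^ 2 + a * b + b ^ 2 := by
    have h3 : a ≠ 0 ∨ b ≠ 0 := by
      by_contra hcon
      push Not at hcon
      exact h (by rw [hcon.1, hcon.2])
    by_contra hlt
    push Not at hlt
    have h4 : (2 * a + b) ^ 2 + 3 * b ^ 2 ≤ 0 := by nlinarith
    have h5 : b = 0 := by nlinarith [sq_nonneg (2 * a + b), sq_nonneg b]
    have h6 : a = 0 := by subst h5; nlinarith [sq_nonneg a]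
    rcases h3 with h3 | h3
    · exact h3 h6
    · exact h3 h5
  have h3 : (1 : ℝ) ≤ ‖pt a b‖ ^ 2 := by rw [h1]; exact_mod_cast h2
  nlinarith [norm_nonneg (pt a b)]

/-- One copy is never a dense forest. -/
lemma one_copy (x : Fin 1 → ℂ) (θ : Fin 1 → ℝ) : ¬ IsDenseForest (TBG 1 x θ) := by
  intro h
  rw [TBG_eq] at h
  have hc : ∀ i, ‖(fun i => Complex.exp (θ i * Complex.I)) i‖ = 1 := fun i =>
    Complex.norm_exp_ofReal_mul_I _
  have hud : ∀ p ∈ Y (fun i => Complex.exp (θ i * Complex.I)) x,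
      ∀ q ∈ Y (fun i => Complex.exp (θ i * Complex.I)) x, p ≠ q → (1 : ℝ) ≤ dist p q := by
    intro p hp q hq hpq
    obtain ⟨i, _, ⟨a, b, rfl⟩, rfl⟩ := Set.mem_iUnion.1 hp
    obtain ⟨j, _, ⟨a', b', rfl⟩, rfl⟩ := Set.mem_iUnion.1 hq
    have hij : i = j := Subsingleton.elim _ _
    subst hij
    have h1 : Complex.exp (θ i * Complex.I) * pt a b + x i -
        (Complex.exp (θ i * Complex.I) * pt a' b' + x i) =
        Complex.exp (θ i * Complex.I) * pt ((a - a' : ℤ) : ℝ) ((b - b' : ℤ) : ℝ) := by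
      unfold pt; push_cast; ring
    rw [dist_eq_norm, h1, norm_mul, Complex.norm_exp_ofReal_mul_I, one_mul]
    apply norm_pt_ge
    intro h0
    rw [Prod.mk.injEq] at h0
    have ha : a = a' := by linarith [h0.1]
    have hb : b = b' := by linarith [h0.2]
    exact hpq (by rw [ha, hb])
  obtain ⟨ε, hε, _, hno⟩ := not_forest hc one_pos hud
  obtain ⟨V, hV, hyes⟩ := h ε hε
  obtain ⟨p, q, hpq, hsep⟩ := hno V hV
  obtain ⟨z, hz, y, hy, hlt⟩ := hyes p q hpq
  have := hsep z hz y hy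
  linarith

/-- The smallest `k` for which some `TBG(k, (x_i), (θ_i))` is a dense forest is `2`. -/
theorem result : IsLeast {k : ℕ | 1 ≤ k ∧ ∃ (x : Fin k → ℂ) (θ : Fin k → ℝ),
    IsDenseForest (TBG k x θ)} 2 := by
  constructor
  · refine ⟨by norm_num, fun _ => 0, ?_⟩
    obtain ⟨θ, hθ⟩ := exists_angles
    have hrep : ∀ i, ∃ t : ℝ, Complex.exp (t * Complex.I) = ei (θ i) := fun i =>
      (Complex.norm_eq_one_iff (ei (θ i))).1 (norm_ei _)
    choose t ht using hrep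
    refine ⟨t, ?_⟩
    rw [TBG_eq]
    have : (fun i => Complex.exp (t i * Complex.I)) = fun i => ei (θ i) := funext ht
    rw [this]
    exact forest_of_angle hθ _
  · rintro k ⟨hk, x, θ, h⟩
    by_contra hlt
    have : k = 1 := by omega
    subst this
    exact one_copy x θ h

end Pool.Agent.Results.MP_b83ca4_nt.SmallestIsTwo
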